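import Pool.Agent.Helper19.HV.StC

/-!
# Project HV (MP_bae8ce_ag), module E3: the duality argument in degree 2
-/

set_option autoImplicit false

open scoped TensorProduct

namespace Pool.Agent.Helper19.HV

noncomputable section

open PL

section

variable {F : Type} [Field F]

/-- a linear map on `V K` which is zero on constants and on the `E a` is zero -/
private theorem e3_ext {cV : V F →ₗ[ℚ] V (RatFunc F)} {lc : V (RatFunc F) →ₗ[ℚ] V F}
    {od : V (RatFunc F) →ₗ[ℚ] (F →₀ ℚ)} (hs : Spl cV lc od) (T : V (RatFunc F) →ₗ[ℚ] ℚ)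
    (h1 : ∀ u : F, T (lg (RatFunc.C u)) = 0) (h2 : ∀ a : F, T (E a) = 0) : T = 0 := by
  have h3 : T ∘ₗ cV = 0 := by
    apply LinearMap.ext_on (span_lg (F := F))
    rintro _ ⟨u, rfl⟩
    rw [LinearMap.comp_apply, hs.cV_lg, h1, LinearMap.zero_apply]
  apply LinearMap.ext
  intro v
  rw [hs.dec v, map_add, LinearMap.zero_apply]
  have h4 : T (cV (lc v)) = 0 := LinearMap.congr_fun h3 (lc v)
  have h5 : T (Finsupp.linearCombination ℚ E (od v)) = 0 := by
    rw [Finsupp.linearCombination_apply, Finsupp.sum, map_sum]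
    refine Finset.sum_eq_zero fun a _ => ?_
    rw [map_smul, h2, smul_zero]
  rw [h4, h5, add_zero]

private theorem e3_sum {ι U : Type} [AddCommGroup U] [Module ℚ U] {n : ℕ} (s : Finset ι)
    (A : ι → (U [⋀^Fin n]→ₗ[ℚ] ℚ)) (v : Fin n → U) : (∑ i ∈ s, A i) v = ∑ i ∈ s, A i v := by
  classical
  induction s using Finset.induction_on with
  | empty => simp
  | insert a s ha ih => rw [Finset.sum_insert ha, Finset.sum_insert ha, AlternatingMap.add_apply, ih]

end

theorem mE3 : sGNR → sBLD → sKLF → sALT → sE3 := by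
  intro hG hB hK hA F _ cV lc od hs hY2 d c m hd hc hm w hw
  by_contra hcon
  obtain ⟨hA1, hA1', hA2, hA2', -, -⟩ := hA (V (RatFunc F)) ℚ
  have hwS : w ∉ II c m 3 1 ⊔ LinearMap.range (d 3 0) := by
    intro h
    obtain ⟨y, hy, z, ⟨w', rfl⟩, hyz⟩ := Submodule.mem_sup.1 h
    apply hcon
    refine ⟨w', ?_⟩
    rw [← hyz, add_sub_cancel_right]
    exact hy
  obtain ⟨f, hfw, hfS⟩ := Submodule.exists_le_ker_of_notMem hwS
  have hfI : ∀ y ∈ II c m 3 1, f y = 0 := fun y hy =>
    LinearMap.mem_ker.1 (hfS (Submodule.mem_sup_left hy))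
  have hfd : ∀ y, f (d 3 0 y) = 0 := fun y =>
    LinearMap.mem_ker.1 (hfS (Submodule.mem_sup_right ⟨y, rfl⟩))
  have hkil := hK (RatFunc F) ℚ 1 1 f
  choose Ψ hΨ using fun x : P1 (RatFunc F) => hA1' ((f ∘ₗ tmL 1 1 x).compAlternatingMap (pr (RatFunc F) 1))
  have hΨ' : ∀ (x : P1 (RatFunc F)) (v : V (RatFunc F)), Ψ x v = f (tm 1 1 x (pr (RatFunc F) 1 ![v])) :=
    fun x v => hΨ x v
  have hPs : Ps Ψ := by
    refine ⟨?_, ?_, ?_⟩
    · intro α hα
      apply LinearMap.ext
      intro v
      have h1 := hkil α hα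
      have h2 := congrArg (fun A : V (RatFunc F) [⋀^Fin 1]→ₗ[ℚ] ℚ => A ![v]) h1
      rw [Finsupp.linearCombination_apply, Finsupp.sum, LinearMap.sum_apply, LinearMap.zero_apply]
      rw [Finsupp.linearCombination_apply, Finsupp.sum] at h2
      simp only [e3_sum, AlternatingMap.smul_apply, AlternatingMap.zero_apply] at h2
      rw [← h2]
      refine Finset.sum_congr rfl fun x _ => ?_
      rw [LinearMap.smul_apply, hΨ]
    · intro x
      rw [hΨ']
      have h1 := hd.three 1 0 x (pr (RatFunc F) 0 ![])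
      rw [wdg_pr] at h1
      have h2 := hfd (tm 2 0 x (pr (RatFunc F) 0 ![]))
      exact (congrArg f h1).symm.trans h2
    · intro z
      refine e3_ext hs _ (fun u => ?_) (fun a => ?_)
      · rw [hΨ']
        have h1 := hc.two 1 1 z ![u]
        have h2 : (fun i => lg (RatFunc.C ((![u] : Fin 1 → F) i))) = ![lg (RatFunc.C u)] := by
          funext i
          fin_cases i
          rfl
        rw [h2] at h1
        have h3 : tm 1 1 (cst z) (pr (RatFunc F) 1 ![lg (RatFunc.C u)]) ∈ II c m 3 1 :=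
          Submodule.mem_sup_left ⟨_, h1⟩
        exact hfI _ h3
      · rw [hΨ']
        have h1 := hm.two a 1 0 z ![]
        have h2 : (Fin.snoc (α := fun _ => V (RatFunc F))
            (fun i => lg (RatFunc.C ((![] : Fin 0 → F) i))) (lg (RatFunc.X - RatFunc.C a))) = ![E a] := by
          funext i
          fin_cases i
          rfl
        rw [h2] at h1
        have h3 : tm 1 1 (cst z) (pr (RatFunc F) 1 ![E a]) ∈ II c m 3 1 :=
          Submodule.mem_sup_right (Submodule.mem_iSup_of_mem a ⟨_, h1⟩)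
        exact hfI _ h3
  obtain ⟨L, hL, hΨL⟩ := hY2 Ψ hPs
  choose Φ hΦ using fun x : P1 (RatFunc F) => hA2 (L x) (hL.alt x)
  have hΦk : Kil (0 + 2) Φ := by
    intro α hα
    have h1 := hL.kil α hα
    apply AlternatingMap.ext
    intro v
    have h2 := congrArg (fun T : V (RatFunc F) →ₗ[ℚ] V (RatFunc F) →ₗ[ℚ] ℚ => T (v 0) (v 1)) h1
    rw [Finsupp.linearCombination_apply, Finsupp.sum] at h2 ⊢
    simp only [LinearMap.sum_apply, LinearMap.smul_apply, LinearMap.zero_apply] at h2
    simp only [e3_sum, AlternatingMap.smul_apply, AlternatingMap.zero_apply]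
    rw [← h2]
    refine Finset.sum_congr rfl fun x _ => ?_
    rw [hΦ]
  obtain ⟨g, hg⟩ := hB (RatFunc F) ℚ 0 2 Φ hΦk
  have hgc : ∀ y, g (c 2 2 y) = 0 := by
    have h1 : g ∘ₗ c 2 2 = 0 := by
      apply gext
      intro x l
      have h2 : (g ∘ₗ c 2 2) ∘ₗ tmL 0 2 x = 0 := by
        apply hG
        intro u
        have h3 := hc.two 0 2 x u
        have h4 := hg (Option.map RatFunc.C x) (fun i => lg (RatFunc.C (u i)))
        rw [hΦ] at h4
        have h5 := hL.cst x (u 0) (lg (RatFunc.C (u 1)))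
        exact (congrArg g h3).trans (h4.trans h5)
      exact LinearMap.congr_fun h2 l
    exact fun y => LinearMap.congr_fun h1 y
  have hgm : ∀ a y, g (m a 2 1 y) = 0 := by
    intro a
    have h1 : g ∘ₗ m a 2 1 = 0 := by
      apply gext
      intro x l
      have h2 : (g ∘ₗ m a 2 1) ∘ₗ tmL 0 1 x = 0 := by
        apply hG
        intro u
        have h3 := hm.two a 0 1 x u
        have h4 := hg (Option.map RatFunc.C x) (Fin.snoc (α := fun _ => V (RatFunc F))
          (fun i => lg (RatFunc.C (u i))) (lg (RatFunc.X - RatFunc.C a)))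
        rw [hΦ] at h4
        have h5 := hL.cst x (u 0) (lg (RatFunc.X - RatFunc.C a))
        exact (congrArg g h3).trans (h4.trans h5)
      exact LinearMap.congr_fun h2 l
    exact fun y => LinearMap.congr_fun h1 y
  have hgI : II c m 2 2 ≤ LinearMap.ker g := by
    refine sup_le ?_ (iSup_le fun a => ?_)
    · rintro _ ⟨y, rfl⟩
      exact LinearMap.mem_ker.2 (hgc y)
    · rintro _ ⟨y, rfl⟩
      exact LinearMap.mem_ker.2 (hgm a y)
  have hfg : f = g ∘ₗ d 2 1 := by
    apply gext
    intro x l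
    have h2 : f ∘ₗ tmL 1 1 x = (g ∘ₗ d 2 1) ∘ₗ tmL 1 1 x := by
      apply wext
      intro v
      have h3 := hd.three 0 1 x (pr (RatFunc F) 1 v)
      rw [wdg_pr] at h3
      have h4 := hg x (Fin.cons (cl x) v)
      rw [hΦ] at h4
      have h5 : v = ![v 0] := by
        funext i
        fin_cases i
        rfl
      have h6 : f (tm 1 1 x (pr (RatFunc F) 1 v)) = L x (cl x) (v 0) := by
        rw [← hΨL, hΨ', ← h5]
      exact h6.trans (h4.symm.trans (congrArg g h3).symm)
    exact LinearMap.congr_fun h2 l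
  apply hfw
  rw [hfg]
  exact LinearMap.mem_ker.1 (hgI hw)

end

end Pool.Agent.Helper19.HV
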